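import Pool.Agent.MP_2042ac_al.Mg.Main

set_option autoImplicit false

namespace Pool.Agent.Results.MP_2042ac_al.NoLift

open Pool.Agent.MP_2042ac_al

/-- For `G = Sp_8` in characteristic `3`, the trivial `G_1`-module has a projective cover, and no
projective cover of it is the restriction of a rational `G`-module. -/
theorem result (k : Type) [Field k] [IsAlgClosed k] [CharP k 3] :
    (∃ Q : Rep (Frob1 k), IsProjCover Q (triv (Frob1 k))) ∧
      ∀ Q : Rep (Frob1 k), IsProjCover Q (triv (Frob1 k)) →
        ∀ M : Rep (Sp8 k), ¬ IsIso (restr M) Q :=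
  ⟨exists_cover (k := k), fun _ hQ M h => not_cover M (hQ.of_iso h)⟩

end Pool.Agent.Results.MP_2042ac_al.NoLift
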